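import Mathlib

set_option autoImplicit false

/-!
# The star number is unbounded on trees

A graph is a star-`k`-PCG if there are positive vertex weights and `k` pairwise disjoint closed
intervals such that two vertices are adjacent exactly when the sum of their weights lies in the
union of the intervals.

Let `c₁, c₂, c₃` be three children of a vertex whose edges to that vertex use the same interval
`I`, with `w c₁ ≤ w c₂ ≤ w c₃`; then `w c₃ - w c₁` is at most the length of `I`.  If `x` is a child
of `c₂` and the edge `x c₂` uses the interval `J`, then `x c₁` and `x c₃` are non-edges, so that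
`w x + w c₁ < min J` and `max J < w x + w c₃`; hence `J` is strictly shorter than `I`.  Going down
from the root of the complete `(2k+1)`-ary tree of depth `k+1` one would find `k+1` intervals of
strictly decreasing lengths.
-/

namespace Pool.Agent.Results.MP_90e7d5_co.UnboundedOnTrees

/-- `G` is a star-`k`-PCG: there are positive weights `w` on the vertices and pairwise disjoint
closed intervals `[a i, b i]`, `i : Fin k` (with `a i ≤ b i`), such that two distinct vertices are
adjacent if and only if the sum of their weights lies in one of the intervals. -/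
def IsStarPCG {V : Type} (G : SimpleGraph V) (k : ℕ) : Prop :=
  ∃ (w : V → ℝ) (a b : Fin k → ℝ), (∀ v, 0 < w v) ∧ (∀ i, a i ≤ b i) ∧
    (∀ i j, i ≠ j → Disjoint (Set.Icc (a i) (b i)) (Set.Icc (a j) (b j))) ∧
    ∀ u v, u ≠ v → (G.Adj u v ↔ w u + w v ∈ ⋃ i, Set.Icc (a i) (b i))

/-- The vertices of the complete `D`-ary tree of depth `h`. -/
def TV (D : ℕ) : ℕ → Type
  | 0 => Unit
  | h + 1 => Option (Fin D × TV D h)

/-- The root. -/
def root (D : ℕ) : (h : ℕ) → TV D h
  | 0 => ()
  | _ + 1 => none

/-- Adjacency. -/
def adj (D : ℕ) : (h : ℕ) → TV D h → TV D h → Prop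
  | 0, _, _ => False
  | _ + 1, none, none => False
  | h + 1, none, some (_, x) => x = root D h
  | h + 1, some (_, x), none => x = root D h
  | h + 1, some (i, x), some (j, y) => i = j ∧ adj D h x y

lemma adj_symm (D : ℕ) : ∀ (h : ℕ) (x y : TV D h), adj D h x y → adj D h y x
  | 0, _, _, H => H
  | _ + 1, none, none, H => H
  | _ + 1, none, some (_, _), H => H
  | _ + 1, some (_, _), none, H => H
  | h + 1, some (_, x), some (_, y), H => ⟨H.1.symm, adj_symm D h x y H.2⟩

lemma adj_irrefl (D : ℕ) : ∀ (h : ℕ) (x : TV D h), ¬ adj D h x x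
  | 0, _, H => H
  | _ + 1, none, H => H
  | h + 1, some (_, x), H => adj_irrefl D h x H.2

/-- The complete `D`-ary tree of depth `h`. -/
def T (D h : ℕ) : SimpleGraph (TV D h) where
  Adj := adj D h
  symm := ⟨fun x y => adj_symm D h x y⟩
  loopless := ⟨adj_irrefl D h⟩

instance instFintypeTV (D : ℕ) : (h : ℕ) → Fintype (TV D h)
  | 0 => inferInstanceAs (Fintype Unit)
  | h + 1 =>
    haveI := instFintypeTV D h
    inferInstanceAs (Fintype (Option (Fin D × TV D h)))

/-- Height above the root. -/
def ht (D : ℕ) : (h : ℕ) → TV D h → ℕ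
  | 0, _ => 0
  | _ + 1, none => 0
  | h + 1, some (_, x) => ht D h x + 1

open Classical in
/-- Parent. -/
noncomputable def par (D : ℕ) : (h : ℕ) → TV D h → TV D h
  | 0, x => x
  | _ + 1, none => none
  | h + 1, some (i, x) => if x = root D h then none else some (i, par D h x)

lemma adj_root (D : ℕ) : ∀ (h : ℕ) (x : TV D h), adj D h x (root D h) → x ≠ root D h := by
  intro h x H hx
  rw [hx] at H
  exact adj_irrefl D h _ H

lemma ht_root (D : ℕ) : ∀ h : ℕ, ht D h (root D h) = 0
  | 0 => rfl
  | _ + 1 => rfl

lemma adj_cases (D : ℕ) : ∀ (h : ℕ) (x y : TV D h), adj D h x y →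
    (y = par D h x ∧ ht D h y < ht D h x) ∨ (x = par D h y ∧ ht D h x < ht D h y)
  | 0, _, _, H => H.elim
  | _ + 1, none, none, H => H.elim
  | h + 1, none, some (i, x), H => by
      right
      have H' : x = root D h := H
      refine ⟨?_, ?_⟩
      · simp only [par, H']; rfl
      · simp [ht]
  | h + 1, some (i, x), none, H => by
      left
      have H' : x = root D h := H
      refine ⟨?_, ?_⟩
      · simp only [par, H']; rfl
      · simp [ht]
  | h + 1, some (i, x), some (j, y), H => by
      obtain ⟨rfl, H2⟩ := H
      rcases adj_cases D h x y H2 with ⟨h1, h2⟩ | ⟨h1, h2⟩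
      · left
        have hx : x ≠ root D h := by
          rintro rfl
          rw [ht_root] at h2
          exact absurd h2 (Nat.not_lt_zero _)
        refine ⟨?_, ?_⟩
        · simp only [par, hx, h1]; rfl
        · simpa [ht] using h2
      · right
        have hy : y ≠ root D h := by
          rintro rfl
          rw [ht_root] at h2
          exact absurd h2 (Nat.not_lt_zero _)
        refine ⟨?_, ?_⟩
        · simp only [par, hy, h1]; rfl
        · simpa [ht] using h2

/-- A graph with a parent function is acyclic. -/
lemma acyclic_of_parent {V : Type} (G : SimpleGraph V) (p : V → V) (ht : V → ℕ)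
    (H : ∀ u v, G.Adj u v → (v = p u ∧ ht v < ht u) ∨ (u = p v ∧ ht u < ht v)) :
    G.IsAcyclic := by
  classical
  intro v c hc
  obtain ⟨u, hu, hmax⟩ := c.support.toFinset.exists_max_image ht
    ⟨v, by simp⟩
  rw [List.mem_toFinset] at hu
  have hc' := hc.rotate hu
  set c' := c.rotate u hu with hc'def
  have hnn : ¬ c'.Nil := hc'.not_nil
  have h1 : G.Adj u c'.snd := c'.adj_snd hnn
  have h2 : G.Adj c'.penultimate u := c'.adj_penultimate hnn
  have hsup : ∀ x ∈ c'.support, ht x ≤ ht u := by
    intro x hx
    apply hmax
    rw [List.mem_toFinset]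
    exact (c.mem_support_rotate_iff u hu).1 hx
  have e1 : c'.snd = p u := by
    rcases H _ _ h1 with h | h
    · exact h.1
    · exact absurd h.2 (not_lt.2 (hsup _ (c'.getVert_mem_support 1)))
  have e2 : c'.penultimate = p u := by
    rcases H _ _ h2.symm with h | h
    · exact h.1
    · exact absurd h.2 (not_lt.2 (hsup _ (c'.getVert_mem_support _)))
  exact hc'.snd_ne_penultimate (e1.trans e2.symm)

lemma T_acyclic (D h : ℕ) : (T D h).IsAcyclic :=
  acyclic_of_parent (T D h) (par D h) (ht D h) (adj_cases D h)

lemma reach_root (D : ℕ) : ∀ (h : ℕ) (x : TV D h), (T D h).Reachable x (root D h)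
  | 0, _ => SimpleGraph.Reachable.refl _
  | _ + 1, none => SimpleGraph.Reachable.refl _
  | h + 1, some (i, x) => by
      have h1 : (T D (h + 1)).Reachable (some (i, x)) (some (i, root D h)) := by
        let f : T D h →g T D (h + 1) :=
          ⟨fun y => (some (i, y) : Option (Fin D × TV D h)), fun {a b} hab => ⟨rfl, hab⟩⟩
        exact (reach_root D h x).map f
      refine h1.trans (SimpleGraph.Adj.reachable ?_)
      exact (rfl : root D h = root D h)

lemma T_tree (D h : ℕ) : (T D h).IsTree := by
  have : Nonempty (TV D h) := ⟨root D h⟩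
  exact ⟨⟨fun x y => (reach_root D h x).trans (reach_root D h y).symm⟩, T_acyclic D h⟩

/-- The children of the root. -/
lemma root_adj_child (D h : ℕ) (i : Fin D) :
    (T D (h + 1)).Adj (root D (h + 1)) (some (i, root D h)) := (rfl : root D h = root D h)

/-- Main induction: if all edges at the root use intervals of length less than `θ`, then the depth
is at most the number of intervals of length less than `θ`. -/
lemma main (k D : ℕ) (hD : 2 * k < D) (a b : Fin k → ℝ) :
    ∀ (h : ℕ) (θ : ℝ) (w : TV D h → ℝ),
    (∀ u v, u ≠ v → ((T D h).Adj u v ↔ w u + w v ∈ ⋃ i, Set.Icc (a i) (b i))) →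
    (∀ x, (T D h).Adj (root _ h) x → ∀ i, w (root _ h) + w x ∈ Set.Icc (a i) (b i) →
      b i - a i < θ) →
    h ≤ (Finset.univ.filter (fun i => b i - a i < θ)).card := by
  classical
  intro h
  induction h with
  | zero => intro θ w _ _; exact Nat.zero_le _
  | succ h ih =>
    intro θ w hw hθ
    -- every child of the root uses some interval
    have hex : ∀ i : Fin D, ∃ j : Fin k,
        w (root _ (h + 1)) + w (some (i, root _ h)) ∈ Set.Icc (a j) (b j) := by
      intro i
      have h1 := (hw (root _ (h + 1)) (some (i, root _ h)) (root_adj_child _ h i).ne).1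
        (root_adj_child _ h i)
      exact Set.mem_iUnion.1 h1
    choose f hf using hex
    -- three children with the same interval
    obtain ⟨j, -, hj⟩ := Finset.exists_lt_card_fiber_of_mul_lt_card_of_maps_to
      (s := (Finset.univ : Finset (Fin D))) (t := (Finset.univ : Finset (Fin k)))
      (f := f) (n := 2) (fun _ _ => Finset.mem_univ _) (by simp; omega)
    obtain ⟨i1, i2, i3, h1, h2, h3, h12, h13, h23⟩ := Finset.two_lt_card_iff.1 hj
    simp only [Finset.mem_filter, Finset.mem_univ, true_and] at h1 h2 h3
    -- sort them by weight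
    set W : Fin D → ℝ := fun i => w (some (i, root _ h)) with hWdef
    have hsort : ∃ p q r : Fin D, p ≠ q ∧ q ≠ r ∧ f p = j ∧ f q = j ∧ f r = j ∧
        W p ≤ W q ∧ W q ≤ W r := by
      rcases le_total (W i1) (W i2) with A | A <;> rcases le_total (W i2) (W i3) with B | B <;>
        rcases le_total (W i1) (W i3) with C | C
      · exact ⟨i1, i2, i3, h12, h23, h1, h2, h3, A, B⟩
      · exact ⟨i1, i2, i3, h12, h23, h1, h2, h3, A, B⟩
      · exact ⟨i1, i3, i2, h13, h23.symm, h1, h3, h2, C, B⟩
      · exact ⟨i3, i1, i2, h13.symm, h12, h3, h1, h2, C, A⟩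
      · exact ⟨i2, i1, i3, h12.symm, h13, h2, h1, h3, A, C⟩
      · exact ⟨i2, i3, i1, h23, h13.symm, h2, h3, h1, B, C⟩
      · exact ⟨i3, i2, i1, h23.symm, h12.symm, h3, h2, h1, B, A⟩
      · exact ⟨i3, i2, i1, h23.symm, h12.symm, h3, h2, h1, B, A⟩
    obtain ⟨p, q, r, hpq, hqr, hp, hq, hr, hWpq, hWqr⟩ := hsort
    have hlen : W r - W p ≤ b j - a j := by
      have e1 := hf p
      have e2 := hf r
      rw [hp] at e1
      rw [hr] at e2
      have := e1.1
      have := e2.2
      simp only [hWdef]
      linarith
    -- the subtree at the middle child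
    have hsub := ih (b j - a j) (fun x => w (some (q, x))) (by
      intro u v huv
      have h4 := hw (some (q, u)) (some (q, v)) (by
        intro hh
        apply huv
        have := Option.some.inj hh
        exact (Prod.mk.inj this).2)
      rw [← h4]
      constructor
      · intro h5
        exact ⟨rfl, h5⟩
      · intro h5
        exact h5.2) (by
      intro x hx i hi
      have hxr : x ≠ root _ h := (hx.ne).symm
      have n1 : w (some (p, root _ h)) + w (some (q, x)) ∉ Set.Icc (a i) (b i) := by
        intro hmem
        have h5 := (hw (some (p, root _ h)) (some (q, x)) (by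
          intro hh
          exact hpq (Prod.mk.inj (Option.some.inj hh)).1)).2 (Set.mem_iUnion.2 ⟨i, hmem⟩)
        exact hpq h5.1
      have n2 : w (some (r, root _ h)) + w (some (q, x)) ∉ Set.Icc (a i) (b i) := by
        intro hmem
        have h5 := (hw (some (r, root _ h)) (some (q, x)) (by
          intro hh
          exact hqr (Prod.mk.inj (Option.some.inj hh)).1.symm)).2 (Set.mem_iUnion.2 ⟨i, hmem⟩)
        exact hqr h5.1.symm
      simp only [hWdef] at hWpq hWqr hlen
      have hi1 := hi.1
      have hi2 := hi.2
      have m1 : w (some (p, root _ h)) + w (some (q, x)) < a i := by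
        by_contra hcon
        exact n1 ⟨not_lt.1 hcon, by linarith⟩
      have m2 : b i < w (some (r, root _ h)) + w (some (q, x)) := by
        by_contra hcon
        exact n2 ⟨by linarith, not_lt.1 hcon⟩
      linarith)
    have hjθ : b j - a j < θ := by
      have := hf q
      rw [hq] at this
      exact hθ _ (root_adj_child _ h q) j this
    have hss : (Finset.univ.filter (fun i => b i - a i < b j - a j)) ⊂
        (Finset.univ.filter (fun i => b i - a i < θ)) := by
      rw [Finset.ssubset_iff_of_subset]
      · exact ⟨j, by simp [hjθ], by simp⟩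
      · intro i hi
        simp only [Finset.mem_filter, Finset.mem_univ, true_and] at hi ⊢
        exact hi.trans hjθ
    have := Finset.card_lt_card hss
    omega

/-- The complete `(2c+1)`-ary tree of depth `c+1` is not a star-`k`-PCG for any `k ≤ c`. -/
theorem not_isStarPCG (c k : ℕ) (hk : k ≤ c) : ¬ IsStarPCG (T (2 * c + 1) (c + 1)) k := by
  classical
  rintro ⟨w, a, b, -, -, -, hw⟩
  obtain ⟨θ, hθ⟩ : ∃ θ : ℝ, ∀ i, b i - a i < θ := by
    obtain ⟨M, hM⟩ := (Finset.univ.image (fun i => b i - a i)).exists_le
    exact ⟨M + 1, fun i => lt_of_le_of_lt (hM _ (Finset.mem_image_of_mem _ (Finset.mem_univ i)))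
      (by linarith)⟩
  have h1 := main k (2 * c + 1) (by omega) a b (c + 1) θ w hw (fun _ _ i _ => hθ i)
  have h2 : (Finset.univ.filter (fun i : Fin k => b i - a i < θ)).card ≤ k := by
    have := Finset.card_le_univ (Finset.univ.filter (fun i : Fin k => b i - a i < θ))
    simpa using this
  omega

/-- The star number is unbounded on finite trees: for every `c` there is a finite tree which is not
a star-`k`-PCG for any `k ≤ c`. -/
theorem result : ∀ c : ℕ, ∃ (V : Type) (_ : Fintype V) (G : SimpleGraph V), G.IsTree ∧
    ∀ k : ℕ, k ≤ c → ¬ IsStarPCG G k := by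
  intro c
  exact ⟨TV (2 * c + 1) (c + 1), inferInstance, T (2 * c + 1) (c + 1), T_tree _ _,
    not_isStarPCG c⟩

end Pool.Agent.Results.MP_90e7d5_co.UnboundedOnTrees
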